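import Mathlib
import Pool.Agent.H808R2.AH.K5

/-!
The gluing theorem of the starting file `Pool.Agent.H808R2.AH.K5` with the averages at the ends of
the blocks (the proof is that of `K5_glue` with one more part).
-/

set_option autoImplicit false

namespace Pool.Agent.Y773.SM
open Pool.Agent.H808R2.AH
open Finset Filter Topology MeasureTheory
open Pool.Agent.H808R2.AH.K5aux

theorem pat_le {N : ℕ} (s : Fin N → Site N) : (pat s : ℝ) ≤ 2 * (N : ℝ) := by
  classical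
  have h : pat s ≤ 2 * N := by
    unfold pat
    refine (Finset.card_filter_le _ _).trans ?_
    simp only [bind_pure_comp, fmap_def]
    exact (@Finset.card_image_le _ _ _ _ (fun a b => Classical.propDecidable (a = b))).trans (by simp)
  exact_mod_cast h

theorem absdiff_le (B : ℕ → ℕ) (q : ℕ → ℝ) (h0 : ∀ i, 0 ≤ q i) (h2 : ∀ i, q i ≤ 2) {n n' : ℕ}
    (hn : n ≤ n') : |(∑ i ∈ range n, (B i : ℝ) * q i) - ∑ i ∈ range n', (B i : ℝ) * q i| ≤
      2 * |V B n - V B n'| := by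
  unfold V
  have e1 : ∀ f : ℕ → ℝ, ∑ i ∈ range n', f i = ∑ i ∈ range n, f i + ∑ i ∈ Ico n n', f i := fun f =>
    (Finset.sum_range_add_sum_Ico f hn).symm
  rw [e1 fun i => (B i : ℝ) * q i, e1 fun i => (B i : ℝ)]
  have e2 : ∀ a b : ℝ, a - (a + b) = -b := fun a b => by ring
  rw [e2, e2, abs_neg, abs_neg]
  have h3 : 0 ≤ ∑ i ∈ Ico n n', (B i : ℝ) * q i :=
    Finset.sum_nonneg fun i _ => mul_nonneg (Nat.cast_nonneg _) (h0 i)
  have h4 : 0 ≤ ∑ i ∈ Ico n n', (B i : ℝ) := Finset.sum_nonneg fun i _ => Nat.cast_nonneg _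
  rw [abs_of_nonneg h3, abs_of_nonneg h4, Finset.mul_sum]
  refine Finset.sum_le_sum fun i _ => ?_
  have := mul_le_mul_of_nonneg_left (h2 i) (Nat.cast_nonneg (α := ℝ) (B i))
  linarith

theorem absdiff (B : ℕ → ℕ) (q : ℕ → ℝ) (h0 : ∀ i, 0 ≤ q i) (h2 : ∀ i, q i ≤ 2) (n n' : ℕ) :
    |(∑ i ∈ range n, (B i : ℝ) * q i) - ∑ i ∈ range n', (B i : ℝ) * q i| ≤
      2 * |V B n - V B n'| := by
  rcases le_total n n' with h | h
  · exact absdiff_le B q h0 h2 h
  · rw [abs_sub_comm, abs_sub_comm (V B n)]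
    exact absdiff_le B q h0 h2 h

/-- K5: gluing, with the averages at the ends of the blocks -/
theorem K5_strong (Nf : ℕ → ℕ) [∀ ν, NeZero (Nf ν)] (L : ℕ) (hlow : ∀ ν, ν + 1 ≤ Nf ν) (hup : ∀ ν, Nf ν ≤ L * (ν + 1))
    (μ : ∀ ν, (Fin (Nf ν) → Site (Nf ν)) → ℝ) (h0 : ∀ ν s, 0 ≤ μ ν s) (h1 : ∀ ν, ∑ s, μ ν s = 1)
    (hinj : ∀ ν s, μ ν s ≠ 0 → Function.Injective s)
    (hc : ∀ (m : ℕ), 1 ≤ m → ∀ (f : (Fin (m + 1) → ℝ) → ℝ) (F : (Fin m → ℝ) → ℂ), TestPair f F →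
      Tendsto (fun ν => (1 / (Nf ν : ℝ)) * ∑ s, μ ν s * ∑ j : Fin (m + 1) ↪ Fin (Nf ν),
        perf f (Nf ν) (fun i => s (j i))) atTop (𝓝 (∫ y : Fin m → ℝ, f (Fin.cons 0 y) * W (Fin.cons 0 y)))) :
    ∃ (S0 : ℕ → Prop) (x : ℕ → ℝ), (setOf S0).Infinite ∧ x = seqOf S0 ∧ InS x ∧
      (∀ c c' : ℝ, c' < c → (∀ᶠ ν in atTop, c ≤ (1 / (Nf ν : ℝ)) * ∑ s, μ ν s * (pat s : ℝ)) →
        ∀ᶠ M in atTop, c' ≤ freq x (5 / 2) M) ∧
      (∀ c c' : ℝ, c < c' → (∀ᶠ ν in atTop, (1 / (Nf ν : ℝ)) * ∑ s, μ ν s * (pat s : ℝ) ≤ c) →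
        ∀ᶠ M in atTop, freq x (5 / 2) M ≤ c') ∧
      (∀ (k : ℕ → ℕ), Tendsto k atTop atTop → ∀ c : ℝ, Tendsto (fun r =>
        (∑ i ∈ range (k r), (Nf (Nat.log 2 (i + 1)) : ℝ) * ((1 / (Nf (Nat.log 2 (i + 1)) : ℝ)) *
          ∑ s, μ (Nat.log 2 (i + 1)) s * (pat s : ℝ))) /
          (∑ i ∈ range (k r), (Nf (Nat.log 2 (i + 1)) : ℝ))) atTop (𝓝 c) →
        ∃ M : ℕ → ℕ, Tendsto M atTop atTop ∧ Tendsto (fun r => freq x (5 / 2) (M r)) atTop (𝓝 c)) ∧
      (∀ (D : Finset ℤ) (ρ : ℝ), Tendsto (fun ν => (1 / (Nf ν : ℝ)) *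
        ∑ s, μ ν s * (rcnt (Nf ν) (ocOf s) D : ℝ)) atTop (𝓝 ρ) →
        Tendsto (fun M : ℕ => (cnt S0 D (Nat.nth S0 M) : ℝ) / M) atTop (𝓝 ρ)) := by
  classical
  have hNpos : ∀ ν, (0 : ℝ) < Nf ν := fun ν => by
    have := Nat.pos_of_ne_zero (NeZero.ne (Nf ν))
    exact_mod_cast this
  let ν : ℕ → ℕ := fun j => Nat.log 2 (j + 1)
  let B : ℕ → ℕ := fun j => Nf (ν j)
  have hB : ∀ j, 1 ≤ B j := fun j => by
    have := hlow (ν j)
    show 1 ≤ Nf (ν j)
    omega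
  have hνt : Tendsto ν atTop atTop := by
    rw [tendsto_atTop]
    intro K
    filter_upwards [eventually_ge_atTop (2 ^ K)] with j hj
    exact Nat.le_log_of_pow_le (by norm_num) (by omega)
  have hBt : Tendsto B atTop atTop := tendsto_atTop_mono (fun j => by
    have := hlow (ν j)
    show ν j ≤ Nf (ν j)
    omega) hνt
  have hL : ∀ j, B j ≤ L * (Nat.log 2 (j + 1) + 1) := fun j => hup _
  obtain ⟨w, hw0, hw⟩ := K1_family (ι := Finset ℤ) (fun j => Fin (Nf (ν j)) → Site (Nf (ν j)))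
    (fun j => μ (ν j)) (fun j => h0 _) (fun j => h1 _)
    (fun D j ω => (rcnt (Nf (ν j)) (ocOf ω) D : ℝ)) (fun j => ((2 * Nf (ν j) : ℕ) : ℝ)) (by
      intro D j ω
      rw [abs_of_nonneg (Nat.cast_nonneg _)]
      exact_mod_cast rcnt_le _ _ _)
  have hinjw : ∀ j, Function.Injective (w j) := fun j => hinj _ _ (hw0 j)
  let oc : ℕ → ℕ → Prop := fun j => ocOf (w j)
  have hoc : open Classical in ∀ j, #{t ∈ range (2 * B j) | oc j t} = B j := fun j => card_oc (w j) (hinjw j)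
  have hBV := lem2 B hB L hL
  have hlim : Tendsto (fun J => (B J : ℝ) / Tlen B J) atTop (𝓝 0) := by
    have h := hBV.div_const 2
    rw [zero_div] at h
    refine h.congr fun J => ?_
    rw [Tlen_eq, div_div, mul_comm]
  obtain ⟨hinf, hmono, hdens, hah, hnth⟩ := K3_seq B hB oc hoc hlim
  set s : ℕ → Prop := glue B oc with hs
  choose Jb hJb1 hJb2 using exists_block B hB
  let T : ℕ → ℕ := fun M => Nat.nth s M
  let J : ℕ → ℕ := fun M => Jb (T M)
  have hJ1 : ∀ M, Tlen B (J M) ≤ T M := fun M => hJb1 _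
  have hJ2 : ∀ M, T M < Tlen B (J M + 1) := fun M => hJb2 _
  have hTM : ∀ M, M ≤ T M := fun M => (Nat.nth_strictMono hinf).le_apply
  have hJt : Tendsto J atTop atTop := J_tendsto B T J hTM hJ2
  have hV : Tendsto (fun M : ℕ => V B (J M) / M) atTop (𝓝 1) := V_lim B hB hBV T J hnth hJ1 hJ2 hJt
  have herr : Tendsto (fun M : ℕ => err B (J M) / M) atTop (𝓝 0) :=
    err_lim B hB (lem_err B hB hBt L hL) J hJt hV
  let E : ℕ → Finset ℤ → ℝ := fun j D => ∑ ω, μ (ν j) ω * (rcnt (Nf (ν j)) (ocOf ω) D : ℝ)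
  have hcnt : ∀ D : Finset ℤ, Tendsto (fun M : ℕ => ((cnt s D (T M) : ℝ) - ∑ j ∈ range (J M), E j D) / M)
      atTop (𝓝 0) := by
    intro D
    obtain ⟨C1, hC1⟩ := K2_count B hB oc D
    obtain ⟨C2, hC2⟩ := hw D
    have h := herr.const_mul ((C1 : ℝ) + 2 + |C2|)
    rw [mul_zero] at h
    refine squeeze_zero_norm (fun M => ?_) h
    rw [Real.norm_eq_abs, abs_div, Nat.abs_cast, ← mul_div_assoc]
    apply div_le_div_of_nonneg_right _ (Nat.cast_nonneg _)
    have h2 := hC1 (J M) (T M) (hJ1 M) (hJ2 M).le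
    have h3 := hC2 (J M)
    have h4 : (cnt s D (T M) : ℝ) - ∑ j ∈ range (J M), E j D =
        ((cnt s D (T M) : ℝ) - ∑ j ∈ range (J M), (rcnt (B j) (oc j) D : ℝ)) +
        ∑ j ∈ range (J M), ((rcnt (Nf (ν j)) (ocOf (w j)) D : ℝ) - ∑ ω, μ (ν j) ω * (rcnt (Nf (ν j)) (ocOf ω) D : ℝ)) := by
      rw [sum_sub_distrib]
      show _ = (_ - _) + (_ - ∑ j ∈ range (J M), E j D)
      simp only [B, oc]
      ring
    rw [h4]
    have hS : 0 ≤ Real.sqrt (∑ j ∈ range (J M), ((2 * B j : ℕ) : ℝ) ^ 2) := Real.sqrt_nonneg _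
    have h5 : C2 * Real.sqrt (∑ j ∈ range (J M), ((2 * B j : ℕ) : ℝ) ^ 2) ≤
        |C2| * Real.sqrt (∑ j ∈ range (J M), ((2 * B j : ℕ) : ℝ) ^ 2) :=
      mul_le_mul_of_nonneg_right (le_abs_self _) hS
    have h6 : (0 : ℝ) ≤ B (J M) := Nat.cast_nonneg _
    have h7 : (0 : ℝ) ≤ J M := Nat.cast_nonneg _
    have h8 : (0 : ℝ) ≤ C1 := Nat.cast_nonneg _
    have h9 : (0 : ℝ) ≤ |C2| := abs_nonneg _
    refine (abs_add_le _ _).trans ((add_le_add h2 h3).trans ?_)
    unfold err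
    set S := Real.sqrt (∑ j ∈ range (J M), ((2 * B j : ℕ) : ℝ) ^ 2) with hSd
    have h10 : C2 * Real.sqrt (∑ j ∈ range (J M), ((2 * Nf (ν j) : ℕ) : ℝ) ^ 2) = C2 * S := rfl
    rw [h10]
    nlinarith [mul_nonneg h8 h6, mul_nonneg h8 hS, mul_nonneg h9 h6, mul_nonneg h9 h7, hS, h6, h7]
  let q : ℕ → ℝ := fun ν => (1 / (Nf ν : ℝ)) * ∑ s, μ ν s * (pat s : ℝ)
  have hfreq : Tendsto (fun M : ℕ => freq (seqOf s) (5 / 2) M - (∑ j ∈ range (J M), (B j : ℝ) * q (ν j)) / M)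
      atTop (𝓝 0) := by
    have h : Tendsto (fun M : ℕ => ∑ Q ∈ ({1, 2, 3, 4} : Finset ℤ).powerset, (-1 : ℝ) ^ #Q *
        (((cnt s (insert 0 (insert 5 Q)) (T M) : ℝ) -
        ∑ j ∈ range (J M), E j (insert 0 (insert 5 Q))) / M)) atTop
        (𝓝 (∑ Q ∈ ({1, 2, 3, 4} : Finset ℤ).powerset, (-1 : ℝ) ^ #Q * 0)) :=
      tendsto_finsetSum _ fun Q _ => (hcnt (insert 0 (insert 5 Q))).const_mul _
    simp only [mul_zero, sum_const_zero] at h
    refine h.congr fun M => ?_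
    rw [K3_freq s hinf M]
    have e1 : ∀ j, (B j : ℝ) * q (ν j) = ∑ Q ∈ ({1, 2, 3, 4} : Finset ℤ).powerset,
        (-1 : ℝ) ^ #Q * E j (insert 0 (insert 5 Q)) := by
      intro j
      have e2 : (B j : ℝ) * q (ν j) = ∑ s, μ (ν j) s * (pat s : ℝ) := by
        show (Nf (ν j) : ℝ) * ((1 / (Nf (ν j) : ℝ)) * _) = _
        rw [← mul_assoc, mul_one_div_cancel (hNpos _).ne', one_mul]
      rw [e2]
      simp only [E, mul_sum]
      rw [sum_comm]
      apply sum_congr rfl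
      intro s _
      rw [K3_pat s, mul_sum]
      exact sum_congr rfl fun _ _ => by ring
    have e3 : ∑ j ∈ range (J M), (B j : ℝ) * q (ν j) = ∑ Q ∈ ({1, 2, 3, 4} : Finset ℤ).powerset,
        (-1 : ℝ) ^ #Q * ∑ j ∈ range (J M), E j (insert 0 (insert 5 Q)) := by
      simp only [e1, mul_sum]
      rw [sum_comm]
    rw [e3, ← sub_div, ← sum_sub_distrib, sum_div]
    apply sum_congr rfl
    intro Q _
    show _ = ((-1 : ℝ) ^ #Q * (cnt s (insert 0 (insert 5 Q)) (T M) : ℝ) - _) / _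
    ring
  refine ⟨s, seqOf s, hinf, rfl, ⟨hmono, hdens, hah, ?_⟩, ?_, ?_, ?_, ?_⟩
  · intro m hm f hf
    obtain ⟨F, hF⟩ := I_test hm hf
    refine ⟨fun N => (K4_seq hF s hinf N 0).1, ?_⟩
    set I : ℝ := ∫ y : Fin m → ℝ, f (Fin.cons 0 y) * W (Fin.cons 0 y) with hI
    let a : ℕ → ℝ := fun ν => (1 / (Nf ν : ℝ)) * ∑ s, μ ν s * ∑ j : Fin (m + 1) ↪ Fin (Nf ν),
        perf f (Nf ν) (fun i => s (j i))
    have ha : Tendsto (fun j => a (ν j)) atTop (𝓝 I) := (hc m hm f F hF).comp hνt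
    have hA := ces_lim B J hV (fun j => a (ν j)) I ha
    obtain ⟨-, htail⟩ := K4_tail hF
    rw [Metric.tendsto_nhds]
    intro ε hε
    obtain ⟨R, hR⟩ := (htail.eventually_lt_const (show (0 : ℝ) < ε / 8 by positivity)).exists
    have hY : Tendsto (fun M : ℕ => ∑ y ∈ box m R, fval f y * (((cnt s (offs y) (T M) : ℝ) -
        ∑ j ∈ range (J M), E j (offs y)) / M)) atTop (𝓝 0) := by
      have h : Tendsto (fun M : ℕ => ∑ y ∈ box m R, fval f y * (((cnt s (offs y) (T M) : ℝ) -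
        ∑ j ∈ range (J M), E j (offs y)) / M)) atTop (𝓝 (∑ y ∈ box m R, fval f y * 0)) :=
        tendsto_finsetSum _ fun y _ => (hcnt (offs y)).const_mul _
      simpa using h
    let q : ℕ → ℝ := fun j => |(∑ y ∈ box m R, fval f y * E j (offs y)) - (B j : ℝ) * a (ν j)| / B j
    have hq : ∀ᶠ j in atTop, q j ≤ tail f R := by
      filter_upwards [hBt.eventually_gt_atTop R] with j hj
      have hbp : (0 : ℝ) < B j := hNpos _
      show |_| / (B j : ℝ) ≤ _
      rw [div_le_iff₀ hbp]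
      have e1 : (B j : ℝ) * a (ν j) = ∑ s, μ (ν j) s * ∑ i : Fin (m + 1) ↪ Fin (Nf (ν j)),
          perf f (Nf (ν j)) (fun k => s (i k)) := by
        show (Nf (ν j) : ℝ) * ((1 / (Nf (ν j) : ℝ)) * _) = _
        rw [← mul_assoc, mul_one_div_cancel (hNpos _).ne', one_mul]
      have e2 : ∑ y ∈ box m R, fval f y * E j (offs y) =
          ∑ s, μ (ν j) s * ∑ y ∈ box m R, fval f y * (rcnt (Nf (ν j)) (ocOf s) (offs y) : ℝ) := by
        simp only [E, mul_sum]
        rw [sum_comm]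
        exact sum_congr rfl fun _ _ => sum_congr rfl fun _ _ => by ring
      rw [e1, e2, ← sum_sub_distrib]
      refine (abs_sum_le_sum_abs _ _).trans ?_
      calc ∑ s, |μ (ν j) s * ∑ y ∈ box m R, fval f y * (rcnt (Nf (ν j)) (ocOf s) (offs y) : ℝ) -
            μ (ν j) s * ∑ i : Fin (m + 1) ↪ Fin (Nf (ν j)), perf f (Nf (ν j)) (fun k => s (i k))|
          ≤ ∑ s, μ (ν j) s * ((Nf (ν j) : ℝ) * tail f R) := by
            apply sum_le_sum
            intro s _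
            rw [← mul_sub, abs_mul, abs_of_nonneg (h0 _ _)]
            by_cases hz : μ (ν j) s = 0
            · rw [hz]; simp
            · apply mul_le_mul_of_nonneg_left _ (h0 _ _)
              rw [abs_sub_comm]
              exact K4_ring hF s (hinj _ _ hz) R hj
        _ = tail f R * (B j : ℝ) := by
            rw [← sum_mul, h1, one_mul, mul_comm]
    have hq2 := ces_le B J hV q (tail f R) (ε / 4) (by linarith) hq
    have hA' := hA.eventually (Metric.ball_mem_nhds I (show (0 : ℝ) < ε / 8 by positivity))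
    have hY' := hY.eventually (Metric.ball_mem_nhds 0 (show (0 : ℝ) < ε / 8 by positivity))
    filter_upwards [hq2, hA', hY', eventually_gt_atTop 0] with M hqM hAM hYM hM
    have hMp : (0 : ℝ) < M := by exact_mod_cast hM
    have hS := (K4_seq hF s hinf M R).2
    rw [Real.dist_eq] at hAM hYM
    rw [sub_zero] at hYM
    rw [Real.dist_eq]
    set Sf : ℝ := ∑' j : CorrIdx m M, f (fun i => seqOf s (j.1 i)) with hSf
    set YR : ℝ := ∑ y ∈ box m R, fval f y * (cnt s (offs y) (Nat.nth s M) : ℝ) with hYR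
    set ZR : ℝ := ∑ y ∈ box m R, fval f y * ∑ j ∈ range (J M), E j (offs y) with hZR
    set AR : ℝ := ∑ j ∈ range (J M), (B j : ℝ) * a (ν j) with hAR
    have e3 : ∑ y ∈ box m R, fval f y * (((cnt s (offs y) (T M) : ℝ) -
        ∑ j ∈ range (J M), E j (offs y)) / M) = (YR - ZR) / M := by
      rw [hYR, hZR, ← sum_sub_distrib, sum_div]
      apply sum_congr rfl
      intro y _
      show _ = (fval f y * (cnt s (offs y) (T M) : ℝ) - _) / _
      ring
    rw [e3] at hYM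
    have e4 : |ZR - AR| ≤ ∑ j ∈ range (J M), (B j : ℝ) * q j := by
      have e5 : ZR - AR = ∑ j ∈ range (J M), ((∑ y ∈ box m R, fval f y * E j (offs y)) - (B j : ℝ) * a (ν j)) := by
        rw [sum_sub_distrib, hZR, hAR]
        congr 1
        rw [sum_comm]
        apply sum_congr rfl
        intro y _
        rw [mul_sum]
      rw [e5]
      refine (abs_sum_le_sum_abs _ _).trans (sum_le_sum fun j _ => ?_)
      show _ ≤ (B j : ℝ) * (|_| / (B j : ℝ))
      have hbp : (0 : ℝ) < B j := hNpos _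
      rw [mul_div_cancel₀ _ hbp.ne']
    have e6 : |ZR - AR| / M ≤ ε / 4 :=
      (div_le_div_of_nonneg_right e4 hMp.le).trans hqM
    have e7 : |Sf - YR| / M ≤ tail f R := by
      rw [div_le_iff₀ hMp]
      linarith
    have e8 : 1 / (M : ℝ) * Sf - I = (Sf - YR) / M + (YR - ZR) / M + (ZR - AR) / M + (AR / M - I) := by
      field_simp
      ring
    rw [e8]
    have e9 : |(Sf - YR) / M| = |Sf - YR| / M := by rw [abs_div, Nat.abs_cast]
    have e10 : |(ZR - AR) / M| = |ZR - AR| / M := by rw [abs_div, Nat.abs_cast]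
    have t1 := abs_add_le ((Sf - YR) / M + (YR - ZR) / M + (ZR - AR) / M) (AR / M - I)
    have t2 := abs_add_le ((Sf - YR) / M + (YR - ZR) / M) ((ZR - AR) / M)
    have t3 := abs_add_le ((Sf - YR) / (M : ℝ)) ((YR - ZR) / M)
    rw [e9] at t3
    rw [e10] at t2
    linarith
  · intro c c' hcc hev
    have h2 := ces_ge B J hV (fun j => q (ν j)) c ((c + c') / 2) (by linarith) (hνt.eventually hev)
    have h3 := hfreq.eventually_const_lt (show (c' - c) / 2 < 0 by linarith)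
    filter_upwards [h2, h3] with M hM1 hM2
    linarith
  · intro c c' hcc hev
    have h2 := ces_le B J hV (fun j => q (ν j)) c ((c + c') / 2) (by linarith) (hνt.eventually hev)
    have h3 := hfreq.eventually_lt_const (show (0 : ℝ) < (c' - c) / 2 by linarith)
    filter_upwards [h2, h3] with M hM1 hM2
    linarith
  · intro k hk c hkc
    have hq0 : ∀ ν, 0 ≤ q ν := fun ν => mul_nonneg (by positivity)
      (Finset.sum_nonneg fun s _ => mul_nonneg (h0 _ _) (Nat.cast_nonneg _))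
    have hq2 : ∀ ν, q ν ≤ 2 := by
      intro ν
      have e1 : ∑ s, μ ν s * (pat s : ℝ) ≤ 2 * (Nf ν : ℝ) := by
        calc ∑ s, μ ν s * (pat s : ℝ) ≤ ∑ s, μ ν s * (2 * (Nf ν : ℝ)) :=
              Finset.sum_le_sum fun s _ => mul_le_mul_of_nonneg_left (pat_le s) (h0 _ _)
          _ = 2 * (Nf ν : ℝ) := by rw [← Finset.sum_mul, h1, one_mul]
      show (1 / (Nf ν : ℝ)) * _ ≤ 2
      rw [one_div, inv_mul_le_iff₀ (hNpos ν)]
      linarith
    have hVk : Tendsto (fun r => V B (k r)) atTop atTop := (V_tendsto B hB).comp hk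
    let m : ℕ → ℕ := fun r => ∑ i ∈ range (k r), B i
    have hm : ∀ r, (m r : ℝ) = V B (k r) := by
      intro r
      show ((∑ i ∈ range (k r), B i : ℕ) : ℝ) = ∑ i ∈ range (k r), (B i : ℝ)
      push_cast
      rfl
    have hmt : Tendsto m atTop atTop := by
      have : Tendsto (fun r => (m r : ℝ)) atTop atTop := by
        refine hVk.congr fun r => (hm r).symm
      exact tendsto_natCast_atTop_iff.1 this
    refine ⟨m, hmt, ?_⟩
    have f1 := hfreq.comp hmt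
    have f2 : Tendsto (fun r => 2 * |V B (J (m r)) / (m r : ℝ) - 1|) atTop (𝓝 0) := by
      have := (((hV.comp hmt).sub_const 1).abs).const_mul 2
      simpa using this
    have f3 : Tendsto (fun r => (∑ j ∈ range (J (m r)), (B j : ℝ) * q (ν j)) / (m r : ℝ) -
        (∑ j ∈ range (k r), (B j : ℝ) * q (ν j)) / (m r : ℝ)) atTop (𝓝 0) := by
      refine squeeze_zero_norm' ?_ f2
      filter_upwards [hmt.eventually_gt_atTop 0] with r hr
      have hr' : (0 : ℝ) < m r := by exact_mod_cast hr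
      have e1 := absdiff B (fun j => q (ν j)) (fun j => hq0 _) (fun j => hq2 _) (J (m r)) (k r)
      rw [Real.norm_eq_abs, ← sub_div, abs_div, abs_of_pos hr']
      have e2 : V B (J (m r)) / (m r : ℝ) - 1 = (V B (J (m r)) - V B (k r)) / (m r : ℝ) := by
        rw [sub_div, ← hm r, div_self hr'.ne']
      rw [e2, abs_div, abs_of_pos hr', ← mul_div_assoc]
      exact div_le_div_of_nonneg_right e1 hr'.le
    have f4 := (f1.add f3).add hkc
    rw [add_zero, zero_add] at f4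
    refine f4.congr fun r => ?_
    have e3 : (∑ i ∈ range (k r), (Nf (Nat.log 2 (i + 1)) : ℝ)) = (m r : ℝ) := (hm r).symm
    rw [e3]
    simp only [Function.comp, B, q, ν]
    ring
  · intro D ρ hρ
    have f1 := ces_lim B J hV (fun j => (1 / (Nf (ν j) : ℝ)) *
      ∑ s, μ (ν j) s * (rcnt (Nf (ν j)) (ocOf s) D : ℝ)) ρ (hρ.comp hνt)
    have f2 := (hcnt D).add f1
    rw [zero_add] at f2
    refine f2.congr fun M => ?_
    have e1 : ∀ j, (B j : ℝ) * ((1 / (Nf (ν j) : ℝ)) *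
        ∑ s, μ (ν j) s * (rcnt (Nf (ν j)) (ocOf s) D : ℝ)) = E j D := by
      intro j
      show (Nf (ν j) : ℝ) * ((1 / (Nf (ν j) : ℝ)) * _) = _
      rw [← mul_assoc, mul_one_div_cancel (hNpos _).ne', one_mul]
    simp only [e1]
    show ((cnt s D (T M) : ℝ) - _) / (M : ℝ) + _ = _
    rw [← add_div]
    congr 1
    show ((cnt s D (Nat.nth s M) : ℝ) - _) + _ = _
    ring

end Pool.Agent.Y773.SM
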