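import Mathlib
import Pool.Agent.H808R2.AH.E

/-!
The tilt does not change the correlations of at most five sites.
-/

set_option autoImplicit false

namespace Pool.Agent.Y773.SM
open Pool.Agent.H808R2.AH
open Pool.Agent.H808R2.AH.EPat
open Finset

variable {N : ℕ} [NeZero N]

/-- the indicator of a set of sites -/
theorem ind_prod (s : Fin N → Site N) (A O : Finset (ZMod N)) : open Classical in
    (if (∀ x ∈ A, ∃ j, s j = (false, x)) ∧ (∀ z ∈ O, ∃ j, s j = (true, z)) then (1 : ℝ) else 0) =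
      (∏ x ∈ A, (1 + sg s x) / 2) * ∏ z ∈ O, occ s z := by
  classical
  have h1 : ∀ x, (1 + sg s x) / 2 = if ∃ j, s j = (false, x) then (1 : ℝ) else 0 := by
    intro x
    unfold sg
    split_ifs <;> norm_num
  have h2 : ∀ z, occ s z = if ∃ j, s j = (true, z) then (1 : ℝ) else 0 := fun z => rfl
  simp only [h1, h2]
  by_cases hA : ∀ x ∈ A, ∃ j, s j = (false, x)
  · by_cases hO : ∀ z ∈ O, ∃ j, s j = (true, z)
    · rw [if_pos ⟨hA, hO⟩, Finset.prod_eq_one (fun x hx => if_pos (hA x hx)),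
        Finset.prod_eq_one (fun z hz => if_pos (hO z hz)), one_mul]
    · rw [if_neg (fun h => hO h.2)]
      push Not at hO
      obtain ⟨z, hz, hz'⟩ := hO
      rw [Finset.prod_eq_zero hz (if_neg (by push Not; exact hz')), mul_zero]
  · rw [if_neg (fun h => hA h.1)]
    push Not at hA
    obtain ⟨x, hx, hx'⟩ := hA
    rw [Finset.prod_eq_zero hx (if_neg (by push Not; exact hx')), zero_mul]

theorem inner_zero (D A O : Finset (ZMod N)) (h : #A + #O < #D) :
    ∑ s : Fin N → Site N, wP N s * (∏ x ∈ D, sg s x) *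
      ((∏ x ∈ A, (1 + sg s x) / 2) * ∏ z ∈ O, occ s z) = 0 := by
  classical
  have h0 : HZero N := fun n m hmn y hy z hz => E1_zero N hmn y hy z hz
  have hexp : ∀ s : Fin N → Site N, wP N s * (∏ x ∈ D, sg s x) *
      ((∏ x ∈ A, (1 + sg s x) / 2) * ∏ z ∈ O, occ s z) =
      ∑ A' ∈ A.powerset, (1 / 2) ^ #A * (wP N s * (∏ x ∈ symmDiff D A', sg s x) * ∏ z ∈ O, occ s z) := by
    intro s
    have e1 : ∏ x ∈ A, (1 + sg s x) / 2 = (1 / 2) ^ #A * ∑ A' ∈ A.powerset, ∏ x ∈ A', sg s x := by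
      have e2 : ∏ x ∈ A, (1 + sg s x) / 2 = ∏ x ∈ A, (1 / 2 * (sg s x + 1)) :=
        Finset.prod_congr rfl fun x _ => by ring
      rw [e2, Finset.prod_mul_distrib, Finset.prod_const, Finset.prod_add]
      simp
    rw [e1, Finset.mul_sum, Finset.sum_mul, Finset.mul_sum]
    refine Finset.sum_congr rfl fun A' _ => ?_
    rw [← prod_symmDiff s D A']
    ring
  rw [Finset.sum_congr rfl fun s _ => hexp s, Finset.sum_comm]
  refine Finset.sum_eq_zero fun A' hA' => ?_
  rw [← Finset.mul_sum]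
  have hcard : #O < #(symmDiff D A') := by
    rw [card_symm]
    have e1 : #A' ≤ #A := Finset.card_le_card (Finset.mem_powerset.1 hA')
    have e2 : #D ≤ #(D \ A') + #A' := by
      have := Finset.card_le_card_sdiff_add_card (s := D) (t := A')
      omega
    omega
  have := EE_zero h0 hcard
  unfold EE at this
  rw [this, mul_zero]

/-- the tilt does not change the correlations of at most five sites -/
theorem tilt_inv (ε : ℝ) (g : ZMod N → ℝ) (A O : Finset (ZMod N)) (h : #A + #O ≤ 5) :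
    open Classical in
    ∑ s : Fin N → Site N, mu N ε g s *
      (if (∀ x ∈ A, ∃ j, s j = (false, x)) ∧ (∀ z ∈ O, ∃ j, s j = (true, z)) then (1 : ℝ) else 0) =
    ∑ s : Fin N → Site N, wP N s *
      (if (∀ x ∈ A, ∃ j, s j = (false, x)) ∧ (∀ z ∈ O, ∃ j, s j = (true, z)) then (1 : ℝ) else 0) := by
  classical
  simp only [ind_prod]
  have e1 : ∀ s : Fin N → Site N, mu N ε g s * ((∏ x ∈ A, (1 + sg s x) / 2) * ∏ z ∈ O, occ s z) =
      ∑ D : Finset (ZMod N), cD N ε g D * (wP N s * (∏ x ∈ D, sg s x) *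
        ((∏ x ∈ A, (1 + sg s x) / 2) * ∏ z ∈ O, occ s z)) := by
    intro s
    unfold mu Gt
    rw [Finset.mul_sum, Finset.sum_mul]
    exact Finset.sum_congr rfl fun D _ => by ring
  rw [Finset.sum_congr rfl fun s _ => e1 s, Finset.sum_comm]
  rw [Finset.sum_eq_single (∅ : Finset (ZMod N))]
  · rw [D1_empty]
    refine Finset.sum_congr rfl fun s _ => ?_
    simp
  · intro D _ hD
    rw [← Finset.mul_sum]
    by_cases h5 : #D ≤ 5
    · rw [D1_small N ε g D (Finset.card_pos.2 (Finset.nonempty_iff_ne_empty.2 hD)) h5, zero_mul]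
    · rw [inner_zero D A O (by omega), mul_zero]
  · intro h
    exact absurd (Finset.mem_univ _) h

end Pool.Agent.Y773.SM
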