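import Mathlib
import Pool.Agent.H808R2.AH.A2
import Pool.Agent.H808R2.AH.J0
import Pool.Agent.H808R2.AH.K3b
import Pool.Agent.Y773.SM.Tilt

/-!
Lattice correlations on the ring, of the base measure and of the tilted measures.
-/

set_option autoImplicit false

namespace Pool.Agent.Y773.SM
open Pool.Agent.H808R2.AH
open Finset Filter Topology

theorem site_inj (N : ℕ) [NeZero N] {u v : ℤ} (huv : |u - v| < 2 * N) (h : site N u = site N v) : u = v := by
  simp only [site, Prod.mk.injEq] at h
  obtain ⟨h1, h2⟩ := h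
  have h3 : ((u / 2 - v / 2 : ℤ) : ZMod N) = 0 := by
    push_cast
    rw [sub_eq_zero]
    exact_mod_cast h2
  rw [ZMod.intCast_zmod_eq_zero_iff_dvd] at h3
  have h4 : (u % 2 = 1) ↔ (v % 2 = 1) := by
    constructor
    · intro h
      have : decide (u % 2 = 1) = true := by simpa using h
      rw [h1] at this
      simpa using this
    · intro h
      have : decide (v % 2 = 1) = true := by simpa using h
      rw [← h1] at this
      simpa using this
  have h5 : u / 2 - v / 2 = 0 := by
    apply Int.eq_zero_of_abs_lt_dvd h3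
    rw [abs_lt] at huv ⊢
    omega
  omega

open Classical in
/-- the probability that the sites `u_i + t` are occupied, base measure -/
theorem prob_base (N : ℕ) [NeZero N] {n : ℕ} (u : Fin n → ℤ) (hu : ∀ i k, i ≠ k → u i ≠ u k ∧ |u i - u k| < 2 * N)
    (t : ℤ) :
    ∑ s : Fin N → Site N, (wP N s : ℂ) * (if ∀ i, ∃ j, s j = site N (u i + t) then 1 else 0) =
      (Matrix.of fun i k : Fin n => ker N (site N (u i)) (site N (u k))).det := by
  have hinj : Function.Injective (fun i => site N (u i + t)) := by
    intro i k hik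
    by_contra hne
    have h1 := hu i k hne
    have h2 := site_inj N (u := u i + t) (v := u k + t) (by
      rw [show u i + t - (u k + t) = u i - u k by ring]
      exact h1.2) hik
    exact h1.1 (by omega)
  rw [← J0_shift N u t, ← A2_occ N (fun i => site N (u i + t)) hinj]

open Classical in
/-- the tilt does not change the probability that at most five given sites are occupied -/
theorem prob_tilt (N : ℕ) [NeZero N] (ε : ℝ) (g : ZMod N → ℝ) {n : ℕ} (hn : n ≤ 5) (p : Fin n → Site N) :
    ∑ s : Fin N → Site N, mu N ε g s * (if ∀ i, ∃ j, s j = p i then (1 : ℝ) else 0) =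
      ∑ s : Fin N → Site N, wP N s * (if ∀ i, ∃ j, s j = p i then (1 : ℝ) else 0) := by
  obtain ⟨A, hA⟩ : ∃ A : Finset (ZMod N), A = (univ.filter fun i => (p i).1 = false).image fun i => (p i).2 :=
    ⟨_, rfl⟩
  obtain ⟨O, hO⟩ : ∃ O : Finset (ZMod N), O = (univ.filter fun i => (p i).1 = true).image fun i => (p i).2 :=
    ⟨_, rfl⟩
  have hcard : #A + #O ≤ 5 := by
    have e1 : #A ≤ #(univ.filter fun i => (p i).1 = false) := by rw [hA]; exact Finset.card_image_le
    have e2 : #O ≤ #(univ.filter fun i => (p i).1 = true) := by rw [hO]; exact Finset.card_image_le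
    have e3 : #(univ.filter fun i => (p i).1 = false) + #(univ.filter fun i => (p i).1 = true) = n := by
      rw [← Finset.card_union_of_disjoint]
      · have : (univ.filter fun i => (p i).1 = false) ∪ (univ.filter fun i => (p i).1 = true) =
            (univ : Finset (Fin n)) := by
          ext i
          simp only [mem_union, mem_filter, mem_univ, true_and, iff_true]
          cases (p i).1 <;> simp
        rw [this]; simp
      · rw [Finset.disjoint_filter]
        intro i _ h1 h2
        rw [h1] at h2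
        exact absurd h2 (by decide)
    omega
  have hiff : ∀ s : Fin N → Site N, (∀ i, ∃ j, s j = p i) ↔
      (∀ x ∈ A, ∃ j, s j = (false, x)) ∧ (∀ z ∈ O, ∃ j, s j = (true, z)) := by
    intro s
    constructor
    · intro h
      constructor
      · intro x hx
        rw [hA, mem_image] at hx
        obtain ⟨i, hi, rfl⟩ := hx
        obtain ⟨j, hj⟩ := h i
        refine ⟨j, ?_⟩
        rw [hj]
        exact Prod.ext (mem_filter.1 hi).2 rfl
      · intro x hx
        rw [hO, mem_image] at hx
        obtain ⟨i, hi, rfl⟩ := hx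
        obtain ⟨j, hj⟩ := h i
        refine ⟨j, ?_⟩
        rw [hj]
        exact Prod.ext (mem_filter.1 hi).2 rfl
    · rintro ⟨h1, h2⟩ i
      rcases hb : (p i).1 with _ | _
      · obtain ⟨j, hj⟩ := h1 (p i).2 (by
          rw [hA, mem_image]
          exact ⟨i, mem_filter.2 ⟨mem_univ _, hb⟩, rfl⟩)
        refine ⟨j, ?_⟩
        rw [hj]
        exact Prod.ext hb.symm rfl
      · obtain ⟨j, hj⟩ := h2 (p i).2 (by
          rw [hO, mem_image]
          exact ⟨i, mem_filter.2 ⟨mem_univ _, hb⟩, rfl⟩)
        refine ⟨j, ?_⟩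
        rw [hj]
        exact Prod.ext hb.symm rfl
  have := tilt_inv ε g A O hcard
  calc _ = ∑ s : Fin N → Site N, mu N ε g s *
      (if (∀ x ∈ A, ∃ j, s j = (false, x)) ∧ (∀ z ∈ O, ∃ j, s j = (true, z)) then (1 : ℝ) else 0) :=
        Finset.sum_congr rfl fun s _ => by rw [if_congr (hiff s) rfl rfl]
    _ = _ := this
    _ = _ := Finset.sum_congr rfl fun s _ => by rw [if_congr (hiff s) rfl rfl]

/-- the ring count as a sum of indicators -/
theorem rcnt_sum (N : ℕ) [NeZero N] (s : Fin N → Site N) (D : Finset ℤ) : open Classical in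
    (rcnt N (ocOf s) D : ℝ) = ∑ t ∈ range (2 * N), if ∀ d ∈ D, ∃ j, s j = site N ((t : ℤ) + d) then (1 : ℝ) else 0 := by
  classical
  rw [K3bAux.rcnt_eq]
  simp only [K3bAux.oc_iff]
  rw [Finset.card_filter]
  push_cast
  rfl

/-- the expected ring count of at most five sites, for the tilted measure -/
theorem avg_eq (N : ℕ) [NeZero N] (ε : ℝ) (g : ZMod N → ℝ) {k : ℕ} (hk : k ≤ 5) (u : Fin k → ℤ)
    (hu2 : ∀ i j, i ≠ j → u i ≠ u j ∧ |u i - u j| < 2 * N) (D : Finset ℤ)
    (hD : ∀ d, d ∈ D ↔ ∃ i, u i = d) :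
    ((((1 / (N : ℝ)) * ∑ s : Fin N → Site N, mu N ε g s * (rcnt N (ocOf s) D : ℝ) : ℝ)) : ℂ) =
      2 * (Matrix.of fun i j : Fin k => ker N (site N (u i)) (site N (u j))).det := by
  classical
  have hall : ∀ (s : Fin N → Site N) (t : ℤ), (∀ d ∈ D, ∃ j, s j = site N (t + d)) ↔
      ∀ i, ∃ j, s j = site N (u i + t) := by
    intro s t
    constructor
    · intro h i
      rw [add_comm]
      exact h _ ((hD _).2 ⟨i, rfl⟩)
    · intro h d hd
      obtain ⟨i, rfl⟩ := (hD d).1 hd
      rw [add_comm]
      exact h i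
  have h1 : ((∑ s : Fin N → Site N, mu N ε g s * (rcnt N (ocOf s) D : ℝ) : ℝ) : ℂ) =
      ∑ _t ∈ range (2 * N), (Matrix.of fun i j : Fin k => ker N (site N (u i)) (site N (u j))).det := by
    have e1 : ∑ s : Fin N → Site N, mu N ε g s * (rcnt N (ocOf s) D : ℝ) =
        ∑ t ∈ range (2 * N), ∑ s : Fin N → Site N, wP N s *
          (if ∀ i, ∃ j, s j = site N (u i + (t : ℤ)) then (1 : ℝ) else 0) := by
      simp only [rcnt_sum, Finset.mul_sum]
      rw [Finset.sum_comm]
      refine Finset.sum_congr rfl fun t _ => ?_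
      rw [← prob_tilt N ε g hk (fun i => site N (u i + (t : ℤ)))]
      refine Finset.sum_congr rfl fun s _ => ?_
      rw [if_congr (hall s t) rfl rfl]
    rw [e1]
    push_cast
    refine Finset.sum_congr rfl fun t _ => ?_
    rw [← prob_base N u hu2 (t : ℤ)]
    refine Finset.sum_congr rfl fun s _ => ?_
    congr 1
    split_ifs <;> simp
  have hN0 : (N : ℂ) ≠ 0 := by exact_mod_cast (NeZero.ne N)
  rw [Complex.ofReal_mul, h1, Finset.sum_const, Finset.card_range]
  simp only [nsmul_eq_mul]
  push_cast
  field_simp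

end Pool.Agent.Y773.SM
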