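import Mathlib

/-!
Weighted averages at the ends of long runs.
-/

set_option autoImplicit false

namespace Pool.Agent.Y773.SM
open Finset Filter Topology

theorem log_add_one_le (i : ℕ) : Nat.log 2 (i + 1) + 1 ≤ i + 1 := by
  have := Nat.log_lt_self 2 (x := i + 1) (by omega)
  omega

/-- the average of `q` over the blocks of a long run tends to the value of the run -/
theorem run_avg (B : ℕ → ℕ) (hB : ∀ i, 1 ≤ B i) (L : ℕ) (hL : ∀ i, B i ≤ L * (Nat.log 2 (i + 1) + 1))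
    (q τ : ℕ → ℝ) (hq0 : ∀ ν, 0 ≤ q ν) (hq2 : ∀ ν, q ν ≤ 2)
    (hqτ : Tendsto (fun ν => q ν - τ ν) atTop (𝓝 0)) (v : ℝ) (R : ℕ → ℕ) (hR : Tendsto R atTop atTop)
    (hrun : ∀ r ν : ℕ, 4 ^ R r ≤ ν → ν < 4 ^ (R r + 1) → τ ν = v) :
    Tendsto (fun r => (∑ i ∈ range (2 ^ (4 ^ (R r + 1)) - 1), (B i : ℝ) * q (Nat.log 2 (i + 1))) /
      (∑ i ∈ range (2 ^ (4 ^ (R r + 1)) - 1), (B i : ℝ))) atTop (𝓝 v) := by
  rw [Metric.tendsto_atTop]
  intro ε hε
  obtain ⟨ν0, hν0⟩ := (Metric.tendsto_atTop.1 hqτ) (ε / 2) (by positivity)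
  set K : ℝ := 2 + |v| with hK
  have hK0 : 0 < K := by positivity
  -- `Q r = 2 ^ 4 ^ R r`
  have hQt : Tendsto (fun r => ((2 ^ (4 ^ R r) : ℕ) : ℝ)) atTop atTop := by
    refine tendsto_natCast_atTop_atTop.comp ?_
    refine tendsto_atTop_mono (fun r => ?_) hR
    calc R r ≤ 4 ^ R r := (Nat.lt_pow_self (by norm_num)).le
      _ ≤ 2 ^ (4 ^ R r) := (Nat.lt_pow_self (by norm_num)).le
  have h4t : Tendsto (fun r => 4 ^ R r) atTop atTop := by
    refine tendsto_atTop_mono (fun r => ?_) hR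
    exact (Nat.lt_pow_self (by norm_num)).le
  obtain ⟨r0, hr0⟩ := eventually_atTop.1 ((h4t.eventually_ge_atTop ν0).and
    ((h4t.eventually_ge_atTop 1).and (hQt.eventually_gt_atTop (4 * K * L / ε))))
  refine ⟨r0, fun r hr => ?_⟩
  obtain ⟨h1, h2, h3⟩ := hr0 r hr
  obtain ⟨Q, hQ⟩ : ∃ Q : ℕ, Q = 2 ^ (4 ^ R r) := ⟨_, rfl⟩
  rw [← hQ] at h3
  have hQ2 : 2 ≤ Q := by
    rw [hQ]
    calc 2 = 2 ^ 1 := rfl
      _ ≤ 2 ^ (4 ^ R r) := Nat.pow_le_pow_right (by norm_num) h2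
  have hQ4 : 2 ^ (4 ^ (R r + 1)) = Q ^ 4 := by
    rw [hQ, ← pow_mul, pow_succ]
  rw [hQ4]
  obtain ⟨n, hn⟩ : ∃ n : ℕ, n = Q ^ 4 - 1 := ⟨_, rfl⟩
  rw [← hn]
  have hQ4n : n + 1 = Q ^ 4 := by
    have : 0 < Q ^ 4 := by positivity
    omega
  -- the total weight
  have hQr : (2 : ℝ) ≤ Q := by exact_mod_cast hQ2
  have hVn : (n : ℝ) ≤ ∑ i ∈ range n, (B i : ℝ) := by
    calc (n : ℝ) = ∑ _i ∈ range n, (1 : ℝ) := by simp
      _ ≤ _ := Finset.sum_le_sum fun i _ => by exact_mod_cast hB i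
  have hnQ : (Q : ℝ) ^ 3 ≤ n := by
    have e1 : (n : ℝ) + 1 = (Q : ℝ) ^ 4 := by exact_mod_cast hQ4n
    have e2 : (Q : ℝ) ^ 3 + 1 ≤ (Q : ℝ) ^ 4 := by
      have e3 : (1 : ℝ) ≤ (Q : ℝ) ^ 3 := one_le_pow₀ (by linarith)
      nlinarith
    linarith
  have hVpos : 0 < ∑ i ∈ range n, (B i : ℝ) := by
    have : 0 < (Q : ℝ) ^ 3 := by positivity
    linarith
  -- the weight of the earlier blocks
  have hB' : ∀ i, i + 1 < Q → (B i : ℝ) ≤ L * Q := by
    intro i hi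
    have e1 := log_add_one_le i
    have e2 : B i ≤ L * Q := (hL i).trans (Nat.mul_le_mul_left _ (by omega))
    exact_mod_cast e2
  -- the difference
  have hdiff : (∑ i ∈ range n, (B i : ℝ) * q (Nat.log 2 (i + 1))) / (∑ i ∈ range n, (B i : ℝ)) - v =
      (∑ i ∈ range n, (B i : ℝ) * (q (Nat.log 2 (i + 1)) - v)) / (∑ i ∈ range n, (B i : ℝ)) := by
    rw [eq_div_iff hVpos.ne', sub_mul, div_mul_cancel₀ _ hVpos.ne', Finset.mul_sum, ← Finset.sum_sub_distrib]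
    exact Finset.sum_congr rfl fun i _ => by ring
  rw [Real.dist_eq, hdiff, abs_div, abs_of_pos hVpos, div_lt_iff₀ hVpos]
  have hterm : ∀ i ∈ range n, |(B i : ℝ) * (q (Nat.log 2 (i + 1)) - v)| ≤
      ε / 2 * B i + (if i + 1 < Q then L * Q * K else 0) := by
    intro i hi
    rw [mem_range] at hi
    rw [abs_mul, abs_of_nonneg (Nat.cast_nonneg _)]
    have hBi : (0 : ℝ) ≤ B i := Nat.cast_nonneg _
    split_ifs with hiQ
    · have e1 : |q (Nat.log 2 (i + 1)) - v| ≤ K := by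
        refine (abs_sub _ _).trans ?_
        rw [abs_of_nonneg (hq0 _)]
        have := hq2 (Nat.log 2 (i + 1))
        linarith
      have e2 := mul_le_mul (hB' i hiQ) e1 (abs_nonneg _) (by positivity)
      have e3 : 0 ≤ ε / 2 * (B i : ℝ) := by positivity
      linarith
    · have e1 : 4 ^ R r ≤ Nat.log 2 (i + 1) := by
        apply Nat.le_log_of_pow_le (by norm_num)
        rw [← hQ]; omega
      have e2 : Nat.log 2 (i + 1) < 4 ^ (R r + 1) := by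
        apply Nat.log_lt_of_lt_pow (by omega)
        rw [hQ4]; omega
      have e3 := hrun r _ e1 e2
      have e4 := hν0 (Nat.log 2 (i + 1)) (h1.trans e1)
      rw [Real.dist_eq, sub_zero, e3] at e4
      rw [add_zero, mul_comm]
      exact mul_le_mul_of_nonneg_right e4.le hBi
  refine lt_of_le_of_lt (Finset.abs_sum_le_sum_abs _ _) ?_
  refine lt_of_le_of_lt (Finset.sum_le_sum hterm) ?_
  rw [Finset.sum_add_distrib, ← Finset.mul_sum, ← Finset.sum_filter, Finset.sum_const, nsmul_eq_mul]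
  have hcard : ((#{i ∈ range n | i + 1 < Q} : ℕ) : ℝ) ≤ Q := by
    have e1 : #{i ∈ range n | i + 1 < Q} ≤ Q := by
      calc #{i ∈ range n | i + 1 < Q} ≤ #(range Q) := by
            apply Finset.card_le_card
            intro i hi
            rw [mem_filter] at hi
            rw [mem_range]
            omega
        _ = Q := by simp
    exact_mod_cast e1
  have e5 : ((#{i ∈ range n | i + 1 < Q} : ℕ) : ℝ) * (L * Q * K) ≤ K * L * Q ^ 2 := by
    calc ((#{i ∈ range n | i + 1 < Q} : ℕ) : ℝ) * (L * Q * K) ≤ Q * (L * Q * K) :=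
          mul_le_mul_of_nonneg_right hcard (by positivity)
      _ = K * L * Q ^ 2 := by ring
  have e6 : K * L * (Q : ℝ) ^ 2 ≤ ε / 4 * (Q : ℝ) ^ 3 := by
    rw [div_lt_iff₀ hε] at h3
    have : K * L * (Q : ℝ) ^ 2 * 4 ≤ ε * (Q : ℝ) ^ 3 := by
      have e7 : 0 ≤ (Q : ℝ) ^ 2 := by positivity
      calc K * L * (Q : ℝ) ^ 2 * 4 = (4 * K * L) * (Q : ℝ) ^ 2 := by ring
        _ ≤ (Q * ε) * (Q : ℝ) ^ 2 := mul_le_mul_of_nonneg_right h3.le e7
        _ = ε * (Q : ℝ) ^ 3 := by ring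
    linarith
  have e8 : ε / 4 * (Q : ℝ) ^ 3 ≤ ε / 4 * ∑ i ∈ range n, (B i : ℝ) :=
    mul_le_mul_of_nonneg_left (hnQ.trans hVn) (by positivity)
  have e9 : 0 < ε * ∑ i ∈ range n, (B i : ℝ) := by positivity
  linarith

end Pool.Agent.Y773.SM
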