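import Mathlib
import Pool.Agent.H808R2.AH.Final
import Pool.Agent.Y773.SM.K5s
import Pool.Agent.Y773.SM.Run
import Pool.Agent.Y773.SM.Ring

/-!
All pairs `(p₋, p₊)` in a triangle are attained.
-/

set_option autoImplicit false

namespace Pool.Agent.Y773.SM
open Pool.Agent.H808R2.AH
open Finset Filter Topology MeasureTheory

theorem pat_eq' (N : ℕ) [NeZero N] (hN : 3 ≤ N) (ε : ℝ) (g : ZMod N → ℝ) :
    (1 / (N : ℝ)) * ∑ s : Fin N → Site N, mu N ε g s * (pat s : ℝ) =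
      (1 / (N : ℝ)) * ∑ s : Fin N → Site N, wP N s * (pat s : ℝ) +
        ε * (1 / 384 * -(TT N g 0 0 + TT N g 1 0)) := by
  have h6 := E_pat N hN ε g
  have h7 : ∑ s : Fin N → Site N, mu N ε g s * (pat s : ℝ) = ∑ s : Fin N → Site N, wP N s * (pat s : ℝ) +
      -(ε / 384) * (N : ℝ) * (TT N g 0 0 + TT N g 1 0) := by
    rw [← h6, ← Finset.sum_add_distrib]
    refine Finset.sum_congr rfl fun s _ => ?_
    ring
  rw [h7]
  have hNpos : (0 : ℝ) < (N : ℝ) := by exact_mod_cast (show 0 < N by omega)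
  field_simp

/-- the proportion of the `j < M` for which all `x_j + y_i / 2` are values of `x` -/
noncomputable def corr {n : ℕ} (x : ℕ → ℝ) (y : Fin n → ℤ) (M : ℕ) : ℝ :=
  open Classical in (#{j ∈ range M | ∀ i, ∃ l, x l = x j + (y i : ℝ) / 2} : ℝ) / M

theorem corr_eq {n : ℕ} (s : ℕ → Prop) (hs : (setOf s).Infinite) (y : Fin n → ℤ) (M : ℕ) :
    corr (seqOf s) y M = (cnt s (offs y) (Nat.nth s M) : ℝ) / M := by
  classical
  unfold corr
  congr 1
  rw [K4a_cnt s hs M y]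
  refine congrArg (Nat.cast : ℕ → ℝ) (congrArg Finset.card (Finset.filter_congr ?_))
  intro j _
  refine forall_congr' fun i => ?_
  unfold seqOf
  constructor
  · rintro ⟨l, hl⟩
    have h1 : ((Nat.nth s l : ℤ) : ℝ) = (((Nat.nth s j : ℤ) + y i : ℤ) : ℝ) := by
      push_cast
      linarith
    have h2 : (Nat.nth s l : ℤ) = (Nat.nth s j : ℤ) + y i := by exact_mod_cast h1
    rw [← h2]
    exact ⟨by positivity, by
      rw [Int.toNat_natCast]
      exact Nat.nth_mem_of_infinite hs l⟩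
  · rintro ⟨h1, h2⟩
    refine ⟨Nat.count s (((Nat.nth s j : ℤ) + y i).toNat), ?_⟩
    rw [Nat.nth_count h2]
    have h3 : ((((Nat.nth s j : ℤ) + y i).toNat : ℤ) : ℝ) = (((Nat.nth s j : ℤ) + y i : ℤ) : ℝ) := by
      rw [Int.toNat_of_nonneg h1]
    push_cast at h3
    linarith

/-- every (slowly changing or not) prescription of the averages is possible -/
theorem exists_seq {c : ℝ} (hc : Tendsto (fun N : ℕ => (1 / ((N + 1 : ℕ) : ℝ)) *
    ∑ s : Fin (N + 1) → Site (N + 1), wP (N + 1) s * (pat s : ℝ)) atTop (𝓝 c)) :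
    ∃ κ : ℝ, 0 < κ ∧ ∀ a b : ℝ, c - κ ≤ a → a ≤ b → b ≤ c + κ →
      ∃ x : ℕ → ℝ, InS x ∧ StrictMono x ∧ (∀ j, ∃ m : ℕ, x j = (m : ℝ) / 2) ∧
        (∀ n : ℕ, n ≤ 4 → ∀ y : Fin n → ℤ, Function.Injective y → (∀ i, y i ≠ 0) →
          Tendsto (corr x y) atTop (𝓝 ((1 / 2) ^ n * W (Fin.cons 0 fun i => (y i : ℝ) / 2)))) ∧
        pMinus x (5 / 2) = a ∧ pPlus x (5 / 2) = b := by
  obtain ⟨L, hL, C, δ, hC, hδ, hF⟩ := F_limit
  obtain ⟨ν₀, hν₀⟩ := eventually_atTop.mp hF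
  have hne : ∀ ν : ℕ, NeZero (L * ((ν + (ν₀ + 3)) + 1)) := fun ν => ⟨by positivity⟩
  have hex : ∀ ν : ℕ, ∃ g : ZMod (L * ((ν + (ν₀ + 3)) + 1)) → ℝ, FarSupp (L * ((ν + (ν₀ + 3)) + 1)) g ∧
      ∑ x, |g x| ≤ C ∧ TT (L * ((ν + (ν₀ + 3)) + 1)) g 0 0 + TT (L * ((ν + (ν₀ + 3)) + 1)) g 1 0 ≤ -δ := by
    intro ν
    exact hν₀ (ν + (ν₀ + 3)) (by omega) _ rfl
  choose g hg1 hg2 hg3 using hex
  refine ⟨1 / C ^ 6 * (δ / 384), by positivity, ?_⟩
  intro a b ha hab hb
  -- the prescribed averages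
  let τ : ℕ → ℝ := fun ν => if Even (Nat.log 4 ν) then a else b
  have hτa : ∀ ν, a ≤ τ ν := fun ν => by
    show a ≤ if Even (Nat.log 4 ν) then a else b
    split_ifs
    · exact le_rfl
    · exact hab
  have hτb : ∀ ν, τ ν ≤ b := fun ν => by
    show (if Even (Nat.log 4 ν) then a else b) ≤ b
    split_ifs
    · exact hab
    · exact le_rfl
  let A : ℕ → ℝ := fun ν => 1 / 384 * -(TT (L * ((ν + (ν₀ + 3)) + 1)) (g ν) 0 0 +
    TT (L * ((ν + (ν₀ + 3)) + 1)) (g ν) 1 0)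
  have hA : ∀ ν, δ / 384 ≤ A ν := fun ν => by
    have := hg3 ν
    show δ / 384 ≤ 1 / 384 * -(_ + _)
    linarith
  have hA0 : ∀ ν, 0 < A ν := fun ν => lt_of_lt_of_le (by positivity) (hA ν)
  let e : ℕ → ℝ := fun ν => (τ ν - c) / A ν
  have he : ∀ ν, |e ν| ≤ 1 / C ^ 6 := by
    intro ν
    show |(τ ν - c) / A ν| ≤ _
    rw [abs_div, abs_of_pos (hA0 ν), div_le_iff₀ (hA0 ν)]
    have e1 : |τ ν - c| ≤ 1 / C ^ 6 * (δ / 384) := by
      rw [abs_le]
      have := hτa ν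
      have := hτb ν
      constructor <;> linarith
    exact e1.trans (mul_le_mul_of_nonneg_left (hA ν) (by positivity))
  have hcond : ∀ ν, |e ν| * (∑ x, |g ν x|) ^ 6 ≤ 1 := by
    intro ν
    have h1 : (∑ x, |g ν x|) ^ 6 ≤ C ^ 6 := by
      apply pow_le_pow_left₀ _ (hg2 ν)
      exact Finset.sum_nonneg fun _ _ => abs_nonneg _
    calc |e ν| * (∑ x, |g ν x|) ^ 6 ≤ 1 / C ^ 6 * C ^ 6 :=
          mul_le_mul (he ν) h1 (by positivity) (by positivity)
      _ = 1 := by field_simp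
  have hsub : Tendsto (fun ν : ℕ => L * ((ν + (ν₀ + 3)) + 1) - 1) atTop atTop := by
    refine tendsto_atTop_mono (fun ν => ?_) tendsto_id
    have : 1 * ((ν + (ν₀ + 3)) + 1) ≤ L * ((ν + (ν₀ + 3)) + 1) := Nat.mul_le_mul_right _ hL
    simp only [id]
    omega
  have hNe : ∀ ν : ℕ, L * ((ν + (ν₀ + 3)) + 1) - 1 + 1 = L * ((ν + (ν₀ + 3)) + 1) := fun ν =>
    Nat.succ_pred_eq_of_pos (Nat.pos_of_ne_zero (hne ν).1)
  have htr : ∀ (Φ : ∀ (N : ℕ) [NeZero N], ℝ) (l : ℝ), Tendsto (fun N : ℕ => Φ (N + 1)) atTop (𝓝 l) →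
      Tendsto (fun ν : ℕ => Φ (L * ((ν + (ν₀ + 3)) + 1))) atTop (𝓝 l) := by
    intro Φ l h
    have h1 := h.comp hsub
    refine h1.congr fun ν => ?_
    simp only [Function.comp]
    have key : ∀ (a b : ℕ) (_ : NeZero a) (_ : NeZero b), a = b → Φ a = Φ b := by
      intro a b ia ib hab
      subst hab
      rfl
    exact key _ _ _ _ (hNe ν)
  obtain ⟨S0, x, hS0, hxS, hx, h1, h2, h3, h3c⟩ := K5_strong (fun ν => L * ((ν + (ν₀ + 3)) + 1)) (L * (ν₀ + 4))
    (fun ν => by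
      have : 1 * ((ν + (ν₀ + 3)) + 1) ≤ L * ((ν + (ν₀ + 3)) + 1) := Nat.mul_le_mul_right _ hL
      show ν + 1 ≤ L * ((ν + (ν₀ + 3)) + 1)
      omega)
    (fun ν => by
      show L * ((ν + (ν₀ + 3)) + 1) ≤ L * (ν₀ + 4) * (ν + 1)
      rw [mul_assoc]
      apply Nat.mul_le_mul_left
      nlinarith)
    (fun ν => mu _ (e ν) (g ν))
    (fun ν s => mu_nonneg _ (e ν) (g ν) (hcond ν) s)
    (fun ν => D3_sum _ (e ν) (g ν))
    (fun ν s hs => A1_inj _ s fun h0 => hs (by simp [mu, h0]))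
    (fun m _ f F h => by
      have h3 := htr (fun N _ => (1 / (N : ℝ)) * ∑ s : Fin N → Site N, wP N s *
        ∑ j : Fin (m + 1) ↪ Fin N, perf f N (fun i => s (j i))) _ (base_avg h)
      refine h3.congr fun ν => ?_
      rw [J4_tilt _ (e ν) (g ν) (hg1 ν) h])
  have h4 := htr (fun N _ => (1 / (N : ℝ)) * ∑ s : Fin N → Site N, wP N s * (pat s : ℝ)) c hc
  -- the averages
  let q : ℕ → ℝ := fun ν => (1 / ((L * ((ν + (ν₀ + 3)) + 1) : ℕ) : ℝ)) *
    ∑ s : Fin (L * ((ν + (ν₀ + 3)) + 1)) → Site (L * ((ν + (ν₀ + 3)) + 1)),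
      mu (L * ((ν + (ν₀ + 3)) + 1)) (e ν) (g ν) s * (pat s : ℝ)
  have hq : ∀ ν, q ν = (1 / ((L * ((ν + (ν₀ + 3)) + 1) : ℕ) : ℝ)) *
      ∑ s : Fin (L * ((ν + (ν₀ + 3)) + 1)) → Site (L * ((ν + (ν₀ + 3)) + 1)),
      wP (L * ((ν + (ν₀ + 3)) + 1)) s * (pat s : ℝ) + (τ ν - c) := by
    intro ν
    have hN3 : 3 ≤ L * ((ν + (ν₀ + 3)) + 1) := by
      have : 1 * ((ν + (ν₀ + 3)) + 1) ≤ L * ((ν + (ν₀ + 3)) + 1) := Nat.mul_le_mul_right _ hL
      omega
    show (1 / _) * _ = _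
    rw [pat_eq' _ hN3 (e ν) (g ν)]
    congr 1
    show (τ ν - c) / A ν * A ν = τ ν - c
    exact div_mul_cancel₀ _ (hA0 ν).ne'
  have hqτ : Tendsto (fun ν => q ν - τ ν) atTop (𝓝 0) := by
    have h5 := h4.sub_const c
    rw [sub_self] at h5
    refine h5.congr fun ν => ?_
    rw [hq ν]
    ring
  have hq0 : ∀ ν, 0 ≤ q ν := fun ν => mul_nonneg (by positivity)
    (Finset.sum_nonneg fun s _ => mul_nonneg (mu_nonneg _ (e ν) (g ν) (hcond ν) s) (Nat.cast_nonneg _))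
  have hNp : ∀ ν, (0 : ℝ) < ((L * ((ν + (ν₀ + 3)) + 1) : ℕ) : ℝ) := fun ν => by
    exact_mod_cast Nat.pos_of_ne_zero (hne ν).1
  have hq2 : ∀ ν, q ν ≤ 2 := by
    intro ν
    have e1 : ∑ s, mu (L * ((ν + (ν₀ + 3)) + 1)) (e ν) (g ν) s * (pat s : ℝ) ≤
        2 * ((L * ((ν + (ν₀ + 3)) + 1) : ℕ) : ℝ) := by
      calc ∑ s, mu (L * ((ν + (ν₀ + 3)) + 1)) (e ν) (g ν) s * (pat s : ℝ) ≤
            ∑ s, mu (L * ((ν + (ν₀ + 3)) + 1)) (e ν) (g ν) s * (2 * ((L * ((ν + (ν₀ + 3)) + 1) : ℕ) : ℝ)) :=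
            Finset.sum_le_sum fun s _ => mul_le_mul_of_nonneg_left (pat_le s)
              (mu_nonneg _ (e ν) (g ν) (hcond ν) s)
        _ = 2 * ((L * ((ν + (ν₀ + 3)) + 1) : ℕ) : ℝ) := by rw [← Finset.sum_mul, D3_sum, one_mul]
    show (1 / _) * _ ≤ 2
    rw [one_div, inv_mul_le_iff₀ (hNp ν)]
    linarith
  refine ⟨x, hx, ?_, ?_, ?_, ?_, ?_⟩
  · intro j k hjk
    rw [hxS]
    unfold seqOf
    have : (Nat.nth S0 j : ℝ) < Nat.nth S0 k := by exact_mod_cast Nat.nth_strictMono hS0 hjk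
    linarith
  · intro j
    exact ⟨Nat.nth S0 j, by rw [hxS]; rfl⟩
  · -- the correlations
    intro n hn y hy hy0
    have hfun : corr x y = fun M => (cnt S0 (offs y) (Nat.nth S0 M) : ℝ) / M := by
      funext M
      rw [hxS, corr_eq S0 hS0]
    rw [hfun]
    refine h3c (offs y) _ ?_
    obtain ⟨u, hu⟩ : ∃ u : Fin (n + 1) → ℤ, u = Fin.cons 0 y := ⟨_, rfl⟩
    have huinj : Function.Injective u := by
      rw [hu, Fin.cons_injective_iff]
      exact ⟨by rintro ⟨i, hi⟩; exact hy0 i hi, hy⟩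
    have hD : ∀ d, d ∈ offs y ↔ ∃ i, u i = d := by
      intro d
      unfold offs
      rw [Finset.mem_insert, Finset.mem_image, Fin.exists_fin_succ, hu]
      simp [eq_comm]
    have hlimC := (J0_limit u).const_mul 2
    have hlim : Tendsto (fun N : ℕ => (2 * (Matrix.of fun i k : Fin (n + 1) =>
        ker (N + 1) (site (N + 1) (u i)) (site (N + 1) (u k))).det).re) atTop
        (𝓝 ((1 / 2) ^ n * W (Fin.cons 0 fun i => (y i : ℝ) / 2))) := by
      have e1 := (Complex.continuous_re.tendsto _).comp hlimC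
      have e2 : (2 * (((1 / 2 : ℝ) ^ (n + 1) * W (fun i => (u i : ℝ) / 2) : ℝ) : ℂ)).re =
          (1 / 2) ^ n * W (Fin.cons 0 fun i => (y i : ℝ) / 2) := by
        have e3 : (fun i => (u i : ℝ) / 2) = (Fin.cons 0 fun i => (y i : ℝ) / 2 : Fin (n + 1) → ℝ) := by
          funext i
          rw [hu]
          refine Fin.cases ?_ (fun i => ?_) i
          · simp
          · simp
        rw [e3, show (2 : ℂ) = ((2 : ℝ) : ℂ) by norm_num, ← Complex.ofReal_mul, Complex.ofReal_re, pow_succ]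
        ring
      rw [e2] at e1
      exact e1
    have hlim2 := htr (fun N _ => (2 * (Matrix.of fun i k : Fin (n + 1) =>
        ker N (site N (u i)) (site N (u k))).det).re) _ hlim
    refine hlim2.congr' ?_
    obtain ⟨K, hK⟩ : ∃ K : ℕ, ∀ i k, |u i - u k| < K := by
      refine ⟨∑ i, ∑ k, (|u i - u k|.toNat + 1), fun i k => ?_⟩
      have e1 : |u i - u k|.toNat + 1 ≤ ∑ i, ∑ k, (|u i - u k|.toNat + 1) :=
        (Finset.single_le_sum (f := fun k => |u i - u k|.toNat + 1) (fun _ _ => Nat.zero_le _)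
          (Finset.mem_univ k)).trans
        (Finset.single_le_sum (f := fun i => ∑ k, (|u i - u k|.toNat + 1)) (fun _ _ => Nat.zero_le _)
          (Finset.mem_univ i))
      have e2 : (|u i - u k|.toNat : ℤ) = |u i - u k| := Int.toNat_of_nonneg (abs_nonneg _)
      have e3 : ((|u i - u k|.toNat + 1 : ℕ) : ℤ) ≤ ((∑ i, ∑ k, (|u i - u k|.toNat + 1) : ℕ) : ℤ) := by
        exact_mod_cast e1
      push_cast at e3 ⊢
      rw [e2] at e3
      linarith
    filter_upwards [eventually_ge_atTop K] with ν hν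
    have hNK : K ≤ L * ((ν + (ν₀ + 3)) + 1) := by
      have : 1 * ((ν + (ν₀ + 3)) + 1) ≤ L * ((ν + (ν₀ + 3)) + 1) := Nat.mul_le_mul_right _ hL
      omega
    have e4 := avg_eq (L * ((ν + (ν₀ + 3)) + 1)) (e ν) (g ν) (show n + 1 ≤ 5 by omega) u (fun i k hik =>
      ⟨fun h => hik (huinj h), by
        have e5 := hK i k
        have e6 : (K : ℤ) ≤ ((L * ((ν + (ν₀ + 3)) + 1) : ℕ) : ℤ) := by exact_mod_cast hNK
        have e7 : (0 : ℤ) ≤ ((L * ((ν + (ν₀ + 3)) + 1) : ℕ) : ℤ) := by positivity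
        linarith⟩) (offs y) hD
    rw [← e4, Complex.ofReal_re]
  · -- `p₋ = a`
    have hlow : ∀ a' < a, ∀ᶠ M in atTop, a' ≤ freq x (5 / 2) M := by
      intro a' ha'
      refine h1 ((a + a') / 2) a' (by linarith) ?_
      have h5 := (tendsto_order.mp hqτ).1 (-((a - a') / 2)) (by linarith)
      refine h5.mono fun ν hν => ?_
      have h6 := hτa ν
      show (a + a') / 2 ≤ q ν
      linarith
    have hsubs : ∃ M : ℕ → ℕ, Tendsto M atTop atTop ∧ Tendsto (fun r => freq x (5 / 2) (M r)) atTop (𝓝 a) := by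
      refine h3 (fun r => 2 ^ (4 ^ (2 * r + 1)) - 1) ?_ a ?_
      · refine tendsto_atTop_mono (fun r => ?_) tendsto_id
        have e1 : r < 4 ^ (2 * r + 1) := lt_of_lt_of_le (Nat.lt_pow_self (by norm_num))
          (Nat.pow_le_pow_right (by norm_num) (by omega : r ≤ 2 * r + 1))
        have e2 : 4 ^ (2 * r + 1) < 2 ^ (4 ^ (2 * r + 1)) := Nat.lt_pow_self (by norm_num)
        simp only [id]
        omega
      · refine run_avg (fun i => L * ((Nat.log 2 (i + 1) + (ν₀ + 3)) + 1)) (fun i => ?_) (L * (ν₀ + 4))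
          (fun i => ?_) q τ hq0 hq2 hqτ a (fun r => 2 * r) (tendsto_atTop_mono (fun r => by
            simp only [id]; omega) tendsto_id) ?_
        · exact Nat.pos_of_ne_zero (hne _).1
        · rw [mul_assoc]
          apply Nat.mul_le_mul_left
          nlinarith
        · intro r ν hν1 hν2
          have e1 : Nat.log 4 ν = 2 * r := Nat.log_eq_of_pow_le_of_lt_pow hν1 hν2
          show (if Even (Nat.log 4 ν) then a else b) = a
          rw [e1, if_pos (even_two_mul r)]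
    obtain ⟨M, hM, hMa⟩ := hsubs
    apply le_antisymm
    · unfold pMinus
      refine le_of_forall_gt_imp_ge_of_dense fun a' ha' => ?_
      have h5 := (tendsto_order.mp hMa).2 a' ha'
      exact Filter.liminf_le_of_frequently_le (hM.frequently (h5.mono fun r hr => le_of_lt hr).frequently)
        (Filter.isBoundedUnder_of ⟨0, fun M => freq_nonneg x _ M⟩)
    · unfold pMinus
      refine le_of_forall_lt_imp_le_of_dense fun a' ha' => ?_
      exact Filter.le_liminf_of_le ⟨1, by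
        intro y hy
        obtain ⟨M, hM⟩ := (Filter.eventually_map.mp hy).exists
        exact hM.trans (freq_le_one x _ M)⟩ (hlow a' ha')
  · -- `p₊ = b`
    have hup : ∀ b' > b, ∀ᶠ M in atTop, freq x (5 / 2) M ≤ b' := by
      intro b' hb'
      refine h2 ((b + b') / 2) b' (by linarith) ?_
      have h5 := (tendsto_order.mp hqτ).2 ((b' - b) / 2) (by linarith)
      refine h5.mono fun ν hν => ?_
      have h6 := hτb ν
      show q ν ≤ (b + b') / 2
      linarith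
    have hsubs : ∃ M : ℕ → ℕ, Tendsto M atTop atTop ∧ Tendsto (fun r => freq x (5 / 2) (M r)) atTop (𝓝 b) := by
      refine h3 (fun r => 2 ^ (4 ^ (2 * r + 1 + 1)) - 1) ?_ b ?_
      · refine tendsto_atTop_mono (fun r => ?_) tendsto_id
        have e1 : r < 4 ^ (2 * r + 1 + 1) := lt_of_lt_of_le (Nat.lt_pow_self (by norm_num))
          (Nat.pow_le_pow_right (by norm_num) (by omega : r ≤ 2 * r + 1 + 1))
        have e2 : 4 ^ (2 * r + 1 + 1) < 2 ^ (4 ^ (2 * r + 1 + 1)) := Nat.lt_pow_self (by norm_num)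
        simp only [id]
        omega
      · refine run_avg (fun i => L * ((Nat.log 2 (i + 1) + (ν₀ + 3)) + 1)) (fun i => ?_) (L * (ν₀ + 4))
          (fun i => ?_) q τ hq0 hq2 hqτ b (fun r => 2 * r + 1) (tendsto_atTop_mono (fun r => by
            simp only [id]; omega) tendsto_id) ?_
        · exact Nat.pos_of_ne_zero (hne _).1
        · rw [mul_assoc]
          apply Nat.mul_le_mul_left
          nlinarith
        · intro r ν hν1 hν2
          have e1 : Nat.log 4 ν = 2 * r + 1 := Nat.log_eq_of_pow_le_of_lt_pow hν1 hν2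
          show (if Even (Nat.log 4 ν) then a else b) = b
          rw [e1, if_neg (by simp)]
    obtain ⟨M, hM, hMb⟩ := hsubs
    apply le_antisymm
    · unfold pPlus
      refine le_of_forall_gt_imp_ge_of_dense fun b' hb' => ?_
      exact Filter.limsup_le_of_le ⟨0, by
        intro y hy
        obtain ⟨M, hM⟩ := (Filter.eventually_map.mp hy).exists
        exact (freq_nonneg x _ M).trans hM⟩ (hup b' hb')
    · unfold pPlus
      refine le_of_forall_lt_imp_le_of_dense fun b' hb' => ?_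
      have h5 := (tendsto_order.mp hMb).1 b' hb'
      exact Filter.le_limsup_of_frequently_le (hM.frequently (h5.mono fun r hr => le_of_lt hr).frequently)
        (Filter.isBoundedUnder_of ⟨1, fun M => freq_le_one x _ M⟩)

end Pool.Agent.Y773.SM
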